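import Pool.Agent.Helper40.AC.Stmts

/-!
Project AC (MP_4c91e2_ag), packet P37: the number of a product projector.
-/

open scoped ContDiff Topology Matrix Kronecker TensorProduct
open MeasureTheory
open Pool.Agent.Helper40.AC

namespace Pool.Agent.Helper65.AC

/-! ### Algebra of the quaternion matrices -/

section alg

variable {S : Type} [CommRing S]

theorem LL_mul (a b : Fin 3 → S) :
    LL a * LL b = LL (crossProduct a b) - (a ⬝ᵥ b) • (1 : Matrix (Fin 4) (Fin 4) S) := by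
  ext i j
  fin_cases i <;> fin_cases j <;>
    simp [LL, Matrix.mul_apply, Fin.sum_univ_four, crossProduct, dotProduct, Fin.sum_univ_three] <;>
    ring

theorem RR_mul (a b : Fin 3 → S) :
    RR a * RR b = -RR (crossProduct a b) - (a ⬝ᵥ b) • (1 : Matrix (Fin 4) (Fin 4) S) := by
  ext i j
  fin_cases i <;> fin_cases j <;>
    simp [RR, Matrix.mul_apply, Fin.sum_univ_four, crossProduct, dotProduct, Fin.sum_univ_three] <;>
    ring

theorem LL_RR (a b : Fin 3 → S) : LL a * RR b = RR b * LL a := by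
  ext i j
  fin_cases i <;> fin_cases j <;>
    simp [LL, RR, Matrix.mul_apply, Fin.sum_univ_four] <;>
    ring

theorem LL_smul (c : S) (a : Fin 3 → S) : LL (c • a) = c • LL a := by
  ext i j
  fin_cases i <;> fin_cases j <;> simp [LL]

theorem RR_smul (c : S) (a : Fin 3 → S) : RR (c • a) = c • RR a := by
  ext i j
  fin_cases i <;> fin_cases j <;> simp [RR]

theorem LL_neg (a : Fin 3 → S) : LL (-a) = -LL a := by
  ext i j
  fin_cases i <;> fin_cases j <;> simp [LL]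

theorem RR_neg (a : Fin 3 → S) : RR (-a) = -RR a := by
  ext i j
  fin_cases i <;> fin_cases j <;> simp [RR]

theorem LL_add (a b : Fin 3 → S) : LL (a + b) = LL a + LL b := by
  ext i j
  fin_cases i <;> fin_cases j <;> simp [LL] <;> ring

theorem RR_add (a b : Fin 3 → S) : RR (a + b) = RR a + RR b := by
  ext i j
  fin_cases i <;> fin_cases j <;> simp [RR] <;> ring

theorem LL_map {T : Type} [CommRing T] (φ : S →+* T) (a : Fin 3 → S) :
    (LL a).map φ = LL (fun m => φ (a m)) := by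
  ext i j
  fin_cases i <;> fin_cases j <;> simp [LL]

theorem RR_map {T : Type} [CommRing T] (φ : S →+* T) (a : Fin 3 → S) :
    (RR a).map φ = RR (fun m => φ (a m)) := by
  ext i j
  fin_cases i <;> fin_cases j <;> simp [RR]

theorem trace_LLRR (a b : Fin 3 → S) : (LL a * RR b).trace = 0 := by
  simp [LL, RR, Matrix.trace, Matrix.diag, Matrix.mul_apply, Fin.sum_univ_four]
  ring

end alg

/-! ### The curvature at a point -/

theorem cross_eq (a u v : Fin 3 → ℂ) (h : a ⬝ᵥ a = 1) (hu : a ⬝ᵥ u = 0) (hv : a ⬝ᵥ v = 0) :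
    crossProduct u v = (a ⬝ᵥ crossProduct u v) • a := by
  simp only [dotProduct, Fin.sum_univ_three] at h hu hv
  ext i
  fin_cases i <;>
    simp only [crossProduct, dotProduct, Fin.sum_univ_three, LinearMap.mk₂_apply,
      Fin.zero_eta, Fin.mk_one, Fin.reduceFinMk, Matrix.cons_val_zero, Matrix.cons_val_one,
      Matrix.cons_val, Pi.smul_apply, smul_eq_mul]
  · linear_combination (-(u 1 * v 2 - u 2 * v 1)) * h - (a 1 * u 2 - a 2 * u 1) * hv +
      (a 1 * v 2 - a 2 * v 1) * hu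
  · linear_combination (-(u 2 * v 0 - u 0 * v 2)) * h - (a 2 * u 0 - a 0 * u 2) * hv +
      (a 2 * v 0 - a 0 * v 2) * hu
  · linear_combination (-(u 0 * v 1 - u 1 * v 0)) * h - (a 0 * u 1 - a 1 * u 0) * hv +
      (a 0 * v 1 - a 1 * v 0) * hu

/-- The value of the form at a point. -/
def omv {n : Type} [Fintype n] (E P0 P1 P2 P3 : Matrix n n ℂ) : ℂ :=
  2 * (((E * (P0 * P1 - P1 * P0)) * (E * (P2 * P3 - P3 * P2))).trace -
    ((E * (P0 * P2 - P2 * P0)) * (E * (P1 * P3 - P3 * P1))).trace +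
    ((E * (P0 * P3 - P3 * P0)) * (E * (P1 * P2 - P2 * P1))).trace)

theorem omv_eq (a a0 a1 b b2 b3 : Fin 3 → ℂ) (ha : a ⬝ᵥ a = 1) (ha0 : a ⬝ᵥ a0 = 0)
    (ha1 : a ⬝ᵥ a1 = 0) (hb : b ⬝ᵥ b = 1) (hb2 : b ⬝ᵥ b2 = 0) (hb3 : b ⬝ᵥ b3 = 0) :
    omv ((1 / 2 : ℂ) • (1 - LL a * RR b)) ((-1 / 2 : ℂ) • (LL a0 * RR b))
      ((-1 / 2 : ℂ) • (LL a1 * RR b)) ((-1 / 2 : ℂ) • (LL a * RR b2))
      ((-1 / 2 : ℂ) • (LL a * RR b3)) =
    (a ⬝ᵥ crossProduct a0 a1) * (b ⬝ᵥ crossProduct b2 b3) := by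
  have hAA : LL a * LL a = -1 := by rw [LL_mul, ha, cross_self]; ext i j; fin_cases i <;>
    fin_cases j <;> simp [LL]
  have hBB : RR b * RR b = -1 := by rw [RR_mul, hb, cross_self]; ext i j; fin_cases i <;>
    fin_cases j <;> simp [RR]
  have hanti : ∀ u : Fin 3 → ℂ, a ⬝ᵥ u = 0 → LL u * LL a = -(LL a * LL u) := by
    intro u hu
    rw [LL_mul, LL_mul, hu, dotProduct_comm, hu, ← cross_anticomm, LL_neg]
    simp
  have hantiR : ∀ u : Fin 3 → ℂ, b ⬝ᵥ u = 0 → RR u * RR b = -(RR b * RR u) := by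
    intro u hu
    rw [RR_mul, RR_mul, hu, dotProduct_comm, hu, ← cross_anticomm, RR_neg]
    simp
  set w := a ⬝ᵥ crossProduct a0 a1 with hw
  set w' := b ⬝ᵥ crossProduct b2 b3 with hw'
  have hc := cross_eq a a0 a1 ha ha0 ha1
  have hc' := cross_eq b b2 b3 hb hb2 hb3
  rw [← hw] at hc
  rw [← hw'] at hc'
  have hbr : LL a0 * LL a1 - LL a1 * LL a0 = (2 * w) • LL a := by
    rw [LL_mul, LL_mul, dotProduct_comm a1 a0, ← cross_anticomm a0 a1, LL_neg, hc, LL_smul]
    module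
  have hbr' : RR b2 * RR b3 - RR b3 * RR b2 = (-(2 * w')) • RR b := by
    rw [RR_mul, RR_mul, dotProduct_comm b3 b2, ← cross_anticomm b2 b3, RR_neg, hc', RR_smul]
    module
  have e1 : ∀ u v : Fin 3 → ℂ, (LL u * RR b) * (LL v * RR b) = -(LL u * LL v) := by
    intro u v
    calc (LL u * RR b) * (LL v * RR b) = LL u * (RR b * LL v) * RR b := by noncomm_ring
      _ = LL u * (LL v * RR b) * RR b := by rw [LL_RR v b]
      _ = LL u * LL v * (RR b * RR b) := by noncomm_ring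
      _ = _ := by rw [hBB]; noncomm_ring
  have e2 : ∀ u v : Fin 3 → ℂ, (LL a * RR u) * (LL a * RR v) = -(RR u * RR v) := by
    intro u v
    calc (LL a * RR u) * (LL a * RR v) = LL a * (RR u * LL a) * RR v := by noncomm_ring
      _ = LL a * (LL a * RR u) * RR v := by rw [LL_RR a u]
      _ = (LL a * LL a) * RR u * RR v := by noncomm_ring
      _ = _ := by rw [hAA]; noncomm_ring
  have e3 : ∀ u v : Fin 3 → ℂ, a ⬝ᵥ u = 0 → b ⬝ᵥ v = 0 →
      (LL u * RR b) * (LL a * RR v) - (LL a * RR v) * (LL u * RR b) = 0 := by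
    intro u v hu hv
    have h1 : (LL u * RR b) * (LL a * RR v) = (LL u * LL a) * (RR b * RR v) := by
      calc (LL u * RR b) * (LL a * RR v) = LL u * (RR b * LL a) * RR v := by noncomm_ring
        _ = LL u * (LL a * RR b) * RR v := by rw [LL_RR a b]
        _ = _ := by noncomm_ring
    have h2 : (LL a * RR v) * (LL u * RR b) = (LL a * LL u) * (RR v * RR b) := by
      calc (LL a * RR v) * (LL u * RR b) = LL a * (RR v * LL u) * RR b := by noncomm_ring
        _ = LL a * (LL u * RR v) * RR b := by rw [LL_RR u v]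
        _ = _ := by noncomm_ring
    rw [h1, h2, hanti u hu, hantiR v hv]
    noncomm_ring
  have h01 : ((-1 / 2 : ℂ) • (LL a0 * RR b)) * ((-1 / 2 : ℂ) • (LL a1 * RR b)) -
      ((-1 / 2 : ℂ) • (LL a1 * RR b)) * ((-1 / 2 : ℂ) • (LL a0 * RR b)) =
      (-(w / 2)) • LL a := by
    rw [smul_mul_smul_comm, smul_mul_smul_comm, e1, e1, ← smul_sub]
    have h : -(LL a0 * LL a1) - -(LL a1 * LL a0) = -((2 * w) • LL a) := by
      rw [← hbr]; noncomm_ring
    rw [h]
    module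
  have h23 : ((-1 / 2 : ℂ) • (LL a * RR b2)) * ((-1 / 2 : ℂ) • (LL a * RR b3)) -
      ((-1 / 2 : ℂ) • (LL a * RR b3)) * ((-1 / 2 : ℂ) • (LL a * RR b2)) =
      (w' / 2) • RR b := by
    rw [smul_mul_smul_comm, smul_mul_smul_comm, e2, e2, ← smul_sub]
    have h : -(RR b2 * RR b3) - -(RR b3 * RR b2) = -((-(2 * w')) • RR b) := by
      rw [← hbr']; noncomm_ring
    rw [h]
    module
  have hx : ∀ u v : Fin 3 → ℂ, a ⬝ᵥ u = 0 → b ⬝ᵥ v = 0 →
      ((-1 / 2 : ℂ) • (LL u * RR b)) * ((-1 / 2 : ℂ) • (LL a * RR v)) -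
      ((-1 / 2 : ℂ) • (LL a * RR v)) * ((-1 / 2 : ℂ) • (LL u * RR b)) = 0 := by
    intro u v hu hv
    rw [smul_mul_smul_comm, smul_mul_smul_comm, ← smul_sub, e3 u v hu hv, smul_zero]
  have hAB : LL a * RR b = RR b * LL a := LL_RR a b
  have hE : ((1 / 2 : ℂ) • (1 - LL a * RR b)) * ((-(w / 2)) • LL a) *
      (((1 / 2 : ℂ) • (1 - LL a * RR b)) * ((w' / 2) • RR b)) =
      (-(w * w' / 8)) • (LL a * RR b - 1) := by
    have k1 : (1 - LL a * RR b) * LL a * ((1 - LL a * RR b) * RR b) =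
        (2 : ℂ) • (LL a * RR b - 1) := by
      have k2 : (LL a * RR b) * (LL a * RR b) = 1 := by rw [e1, hAA]; simp
      have k3 : LL a * ((1 - LL a * RR b) * RR b) = (1 - LL a * RR b) * (LL a * RR b) := by
        have : LL a * (LL a * RR b) * RR b = LL a * RR b * (LL a * RR b) := by
          calc LL a * (LL a * RR b) * RR b = LL a * (RR b * LL a) * RR b := by rw [hAB]
            _ = _ := by noncomm_ring
        calc LL a * ((1 - LL a * RR b) * RR b) = LL a * RR b - LL a * (LL a * RR b) * RR b := by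
              noncomm_ring
          _ = LL a * RR b - LL a * RR b * (LL a * RR b) := by rw [this]
          _ = _ := by noncomm_ring
      calc (1 - LL a * RR b) * LL a * ((1 - LL a * RR b) * RR b) =
          (1 - LL a * RR b) * (LL a * ((1 - LL a * RR b) * RR b)) := by noncomm_ring
        _ = (1 - LL a * RR b) * ((1 - LL a * RR b) * (LL a * RR b)) := by rw [k3]
        _ = LL a * RR b - 2 * ((LL a * RR b) * (LL a * RR b)) +
            (LL a * RR b) * ((LL a * RR b) * (LL a * RR b)) := by noncomm_ring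
        _ = LL a * RR b - 2 * 1 + (LL a * RR b) * 1 := by rw [k2]
        _ = _ := by rw [two_smul]; noncomm_ring
    calc _ = ((1 / 2) * (-(w / 2)) * ((1 / 2) * (w' / 2))) •
          ((1 - LL a * RR b) * LL a * ((1 - LL a * RR b) * RR b)) := by
          rw [smul_mul_smul_comm, smul_mul_smul_comm, smul_mul_smul_comm]
      _ = _ := by rw [k1, smul_smul]; congr 1; ring
  unfold omv
  rw [h01, h23, hx a0 b2 ha0 hb2, hx a1 b3 ha1 hb3, hx a0 b3 ha0 hb3, hx a1 b2 ha1 hb2, hE]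
  rw [Matrix.trace_smul, Matrix.trace_sub, trace_LLRR]
  simp only [Matrix.trace_one, mul_zero, Matrix.trace_zero, smul_eq_mul, Fintype.card_fin]
  push_cast
  ring

/-! ### Derivatives -/

theorem pd_line (f : BB) (j : Fin 4) (x : Ang) (d : ℂ)
    (h : HasDerivAt (fun t : ℝ => f.fn (x + t • Pi.single j (1 : ℝ))) d 0) :
    (pd j f).fn x = d := by
  have h1 : HasFDerivAt f.fn (fderiv ℝ f.fn x) (x + (0 : ℝ) • Pi.single j (1 : ℝ)) := by
    rw [zero_smul, add_zero]
    exact (f.smooth.differentiable (by simp) x).hasFDerivAt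
  have h2 : HasDerivAt (fun t : ℝ => x + t • (Pi.single j (1 : ℝ) : Ang))
      (Pi.single j (1 : ℝ)) 0 := by
    have := ((hasDerivAt_id (0 : ℝ)).smul_const (Pi.single j (1 : ℝ) : Ang)).const_add x
    simpa using this
  have h3 := h1.comp_hasDerivAt (0 : ℝ) h2
  exact h3.unique h

theorem hasDerivAt_LL (a : ℝ → Fin 3 → ℝ) (a' : Fin 3 → ℝ) (b : Fin 3 → ℝ) (t : ℝ)
    (h : HasDerivAt a a' t) (i k : Fin 4) :
    HasDerivAt (fun t => ((pR (a t) b i k : ℝ) : ℂ))
      ((((-1 / 2 : ℝ) • (LL a' * RR b)) i k : ℝ) : ℂ) t := by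
  let L : (Fin 3 → ℝ) →ₗ[ℝ] ℝ :=
    { toFun := fun a => (LL a * RR b) i k
      map_add' := fun u v => by simp only [LL_add, add_mul, Matrix.add_apply]
      map_smul' := fun c u => by
        simp only [LL_smul, Matrix.smul_mul, Matrix.smul_apply, RingHom.id_apply] }
  have h1 : HasDerivAt (fun t => L.toContinuousLinearMap (a t)) (L.toContinuousLinearMap a') t :=
    L.toContinuousLinearMap.hasFDerivAt.comp_hasDerivAt t h
  have h2 : HasDerivAt (fun t => (LL (a t) * RR b) i k) ((LL a' * RR b) i k) t := h1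
  have h3 := ((h2.const_sub ((1 : Matrix (Fin 4) (Fin 4) ℝ) i k)).const_mul (1 / 2 : ℝ)).ofReal_comp
  have e1 : ((((-1 / 2 : ℝ) • (LL a' * RR b)) i k : ℝ) : ℂ) =
      ((1 / 2 * -(LL a' * RR b) i k : ℝ) : ℂ) := by
    congr 1
    simp only [Matrix.smul_apply, smul_eq_mul]
    ring
  rw [e1]
  exact h3

theorem hasDerivAt_RR (b : ℝ → Fin 3 → ℝ) (b' : Fin 3 → ℝ) (a : Fin 3 → ℝ) (t : ℝ)
    (h : HasDerivAt b b' t) (i k : Fin 4) :
    HasDerivAt (fun t => ((pR a (b t) i k : ℝ) : ℂ))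
      ((((-1 / 2 : ℝ) • (LL a * RR b')) i k : ℝ) : ℂ) t := by
  let L : (Fin 3 → ℝ) →ₗ[ℝ] ℝ :=
    { toFun := fun b => (LL a * RR b) i k
      map_add' := fun u v => by simp only [RR_add, mul_add, Matrix.add_apply]
      map_smul' := fun c u => by
        simp only [RR_smul, Matrix.mul_smul, Matrix.smul_apply, RingHom.id_apply] }
  have h1 : HasDerivAt (fun t => L.toContinuousLinearMap (b t)) (L.toContinuousLinearMap b') t :=
    L.toContinuousLinearMap.hasFDerivAt.comp_hasDerivAt t h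
  have h2 : HasDerivAt (fun t => (LL a * RR (b t)) i k) ((LL a * RR b') i k) t := h1
  have h3 := ((h2.const_sub ((1 : Matrix (Fin 4) (Fin 4) ℝ) i k)).const_mul (1 / 2 : ℝ)).ofReal_comp
  have e1 : ((((-1 / 2 : ℝ) • (LL a * RR b')) i k : ℝ) : ℂ) =
      ((1 / 2 * -(LL a * RR b') i k : ℝ) : ℂ) := by
    congr 1
    simp only [Matrix.smul_apply, smul_eq_mul]
    ring
  rw [e1]
  exact h3

section per

variable (α : PerMap)

theorem per_fderiv1 (θ φ : ℝ) : HasDerivAt (fun t => α.f t φ)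
    (fderiv ℝ (fun p : ℝ × ℝ => α.f p.1 p.2) (θ, φ) (1, 0)) θ := by
  have h1 : HasFDerivAt (fun p : ℝ × ℝ => α.f p.1 p.2)
      (fderiv ℝ (fun p : ℝ × ℝ => α.f p.1 p.2) (θ, φ)) (θ, φ) :=
    (α.smooth.differentiable (by simp) (θ, φ)).hasFDerivAt
  have h2 : HasDerivAt (fun t : ℝ => (t, φ)) ((1 : ℝ), (0 : ℝ)) θ :=
    (hasDerivAt_id θ).prodMk (hasDerivAt_const θ φ)
  exact h1.comp_hasDerivAt θ h2

theorem per_fderiv2 (θ φ : ℝ) : HasDerivAt (fun t => α.f θ t)
    (fderiv ℝ (fun p : ℝ × ℝ => α.f p.1 p.2) (θ, φ) (0, 1)) φ := by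
  have h1 : HasFDerivAt (fun p : ℝ × ℝ => α.f p.1 p.2)
      (fderiv ℝ (fun p : ℝ × ℝ => α.f p.1 p.2) (θ, φ)) (θ, φ) :=
    (α.smooth.differentiable (by simp) (θ, φ)).hasFDerivAt
  have h2 : HasDerivAt (fun t : ℝ => (θ, t)) ((0 : ℝ), (1 : ℝ)) φ :=
    (hasDerivAt_const φ θ).prodMk (hasDerivAt_id φ)
  exact h1.comp_hasDerivAt φ h2

theorem per1' (θ φ : ℝ) : HasDerivAt (fun t => α.f t φ) (deriv (fun t => α.f t φ) θ) θ :=
  (per_fderiv1 α θ φ).differentiableAt.hasDerivAt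

theorem per2' (θ φ : ℝ) : HasDerivAt (fun t => α.f θ t) (deriv (fun t => α.f θ t) φ) φ :=
  (per_fderiv2 α θ φ).differentiableAt.hasDerivAt

theorem orth_of (a : ℝ → Fin 3 → ℝ) (a' : Fin 3 → ℝ) (t : ℝ) (h : HasDerivAt a a' t)
    (hu : ∀ s, ∑ i, a s i ^ 2 = 1) : a t ⬝ᵥ a' = 0 := by
  have h1 : HasDerivAt (fun s => ∑ i, a s i ^ 2) (∑ i, 2 * a t i * a' i) t := by
    refine HasDerivAt.fun_sum fun i _ => ?_
    have h5 : HasDerivAt (fun s => a s i ^ 2) (((2 : ℕ) : ℝ) * a t i ^ (2 - 1) * a' i) t :=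
      (hasDerivAt_pi.1 h i).pow 2
    have e : 2 * a t i * a' i = ((2 : ℕ) : ℝ) * a t i ^ (2 - 1) * a' i := by simp
    rw [e]
    exact h5
  have h2 : HasDerivAt (fun s => ∑ i, a s i ^ 2) 0 t := by
    simp only [hu]
    exact hasDerivAt_const t 1
  have h3 := h1.unique h2
  have h4 : (2 : ℝ) * (a t ⬝ᵥ a') = 0 := by
    rw [← h3, dotProduct, Finset.mul_sum]
    exact Finset.sum_congr rfl fun i _ => by ring
  linarith

theorem wA_cont : Continuous (fun p : ℝ × ℝ => wA α.f p.1 p.2) := by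
  have hF : Continuous (fun p : ℝ × ℝ => α.f p.1 p.2) := α.smooth.continuous
  have hd : Continuous (fun p : ℝ × ℝ => fderiv ℝ (fun p : ℝ × ℝ => α.f p.1 p.2) p) :=
    α.smooth.continuous_fderiv (by simp)
  have h1 : Continuous (fun p : ℝ × ℝ => deriv (fun t => α.f t p.2) p.1) := by
    have : (fun p : ℝ × ℝ => deriv (fun t => α.f t p.2) p.1) =
        fun p : ℝ × ℝ => fderiv ℝ (fun p : ℝ × ℝ => α.f p.1 p.2) p (1, 0) :=
      funext fun p => (per_fderiv1 α p.1 p.2).deriv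
    rw [this]
    exact hd.clm_apply continuous_const
  have h2 : Continuous (fun p : ℝ × ℝ => deriv (fun t => α.f p.1 t) p.2) := by
    have : (fun p : ℝ × ℝ => deriv (fun t => α.f p.1 t) p.2) =
        fun p : ℝ × ℝ => fderiv ℝ (fun p : ℝ × ℝ => α.f p.1 p.2) p (0, 1) :=
      funext fun p => (per_fderiv2 α p.1 p.2).deriv
    rw [this]
    exact hd.clm_apply continuous_const
  have k0 : ∀ i, Continuous (fun p : ℝ × ℝ => α.f p.1 p.2 i) := fun i =>
    (continuous_apply i).comp hF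
  have k1 : ∀ i, Continuous (fun p : ℝ × ℝ => deriv (fun t => α.f t p.2) p.1 i) := fun i =>
    (continuous_apply i).comp h1
  have k2 : ∀ i, Continuous (fun p : ℝ × ℝ => deriv (fun t => α.f p.1 t) p.2 i) := fun i =>
    (continuous_apply i).comp h2
  have e : (fun p : ℝ × ℝ => wA α.f p.1 p.2) = fun p : ℝ × ℝ =>
      α.f p.1 p.2 0 * (deriv (fun t => α.f t p.2) p.1 1 * deriv (fun t => α.f p.1 t) p.2 2 -
        deriv (fun t => α.f t p.2) p.1 2 * deriv (fun t => α.f p.1 t) p.2 1) +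
      α.f p.1 p.2 1 * (deriv (fun t => α.f t p.2) p.1 2 * deriv (fun t => α.f p.1 t) p.2 0 -
        deriv (fun t => α.f t p.2) p.1 0 * deriv (fun t => α.f p.1 t) p.2 2) +
      α.f p.1 p.2 2 * (deriv (fun t => α.f t p.2) p.1 0 * deriv (fun t => α.f p.1 t) p.2 1 -
        deriv (fun t => α.f t p.2) p.1 1 * deriv (fun t => α.f p.1 t) p.2 0) := by
    funext p
    simp [wA, crossProduct, dotProduct, Fin.sum_univ_three]
  rw [e]
  have a0 := k0 0
  have a1 := k0 1
  have a2 := k0 2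
  have b0 := k1 0
  have b1 := k1 1
  have b2 := k1 2
  have c0 := k2 0
  have c1 := k2 1
  have c2 := k2 2
  exact (((a0.mul ((b1.mul c2).sub (b2.mul c1))).add (a1.mul ((b2.mul c0).sub (b0.mul c2)))).add
    (a2.mul ((b0.mul c1).sub (b1.mul c0))))

end per

/-! ### Fubini -/

/-- The splitting `ℝ⁴ = ℝ² × ℝ²`. -/
theorem split_mp : ∃ e : Ang ≃ᵐ (ℝ × ℝ) × (ℝ × ℝ), (∀ x, e x = ((x 0, x 1), (x 2, x 3))) ∧
    MeasurePreserving e (volume : Measure Ang) (volume : Measure ((ℝ × ℝ) × (ℝ × ℝ))) := by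
  let e1 : Ang ≃ᵐ (Fin 2 → ℝ) × (Fin 2 → ℝ) :=
    (MeasurableEquiv.piCongrLeft (fun _ => ℝ) (finSumFinEquiv (m := 2) (n := 2))).symm.trans
      (MeasurableEquiv.sumPiEquivProdPi (fun _ => ℝ))
  have m1 : MeasurePreserving e1 volume volume :=
    (volume_measurePreserving_sumPiEquivProdPi (fun _ => ℝ)).comp
      (volume_measurePreserving_piCongrLeft (fun _ => ℝ)
        (finSumFinEquiv (m := 2) (n := 2))).symm
  let e2 : (Fin 2 → ℝ) × (Fin 2 → ℝ) ≃ᵐ (ℝ × ℝ) × (ℝ × ℝ) :=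
    MeasurableEquiv.prodCongr MeasurableEquiv.finTwoArrow MeasurableEquiv.finTwoArrow
  have m2 : MeasurePreserving e2 volume volume :=
    (volume_preserving_finTwoArrow ℝ).prod (volume_preserving_finTwoArrow ℝ)
  refine ⟨e1.trans e2, fun x => ?_, m2.comp m1⟩
  rfl

theorem int_w (α : PerMap) :
    ∫ p in (Set.Icc (0 : ℝ) (2 * Real.pi)) ×ˢ (Set.Icc (0 : ℝ) (2 * Real.pi)),
      wA α.f p.1 p.2 = DD α.f := by
  have hpi : (0 : ℝ) ≤ 2 * Real.pi := by positivity
  have hint : IntegrableOn (fun p : ℝ × ℝ => wA α.f p.1 p.2)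
      ((Set.Icc (0 : ℝ) (2 * Real.pi)) ×ˢ (Set.Icc (0 : ℝ) (2 * Real.pi)))
      ((volume : Measure ℝ).prod (volume : Measure ℝ)) :=
    (wA_cont α).continuousOn.integrableOn_compact (isCompact_Icc.prod isCompact_Icc)
  have h1 := setIntegral_prod (μ := (volume : Measure ℝ)) (ν := (volume : Measure ℝ))
    (s := Set.Icc (0 : ℝ) (2 * Real.pi)) (t := Set.Icc (0 : ℝ) (2 * Real.pi))
    (fun p : ℝ × ℝ => wA α.f p.1 p.2) hint
  have h2 : ∫ p in (Set.Icc (0 : ℝ) (2 * Real.pi)) ×ˢ (Set.Icc (0 : ℝ) (2 * Real.pi)),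
      wA α.f p.1 p.2 = ∫ p in (Set.Icc (0 : ℝ) (2 * Real.pi)) ×ˢ (Set.Icc (0 : ℝ) (2 * Real.pi)),
      wA α.f p.1 p.2 ∂((volume : Measure ℝ).prod (volume : Measure ℝ)) := rfl
  rw [h2, h1, DD, intervalIntegral.integral_of_le hpi, integral_Icc_eq_integral_Ioc]
  refine setIntegral_congr_fun measurableSet_Ioc fun θ _ => ?_
  simp only
  rw [intervalIntegral.integral_of_le hpi, integral_Icc_eq_integral_Ioc]

theorem int_cube (α β : PerMap) :
    ∫ x in cube, wA α.f (x 0) (x 1) * wA β.f (x 2) (x 3) = DD α.f * DD β.f := by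
  obtain ⟨e, he, hm⟩ := split_mp
  set I := (Set.Icc (0 : ℝ) (2 * Real.pi)) ×ˢ (Set.Icc (0 : ℝ) (2 * Real.pi)) with hI
  have hc : cube = e ⁻¹' (I ×ˢ I) := by
    ext x
    simp only [cube, Set.mem_preimage, he, Set.mem_prod, Set.mem_Icc, hI, Pi.le_def,
      Fin.forall_fin_succ, Pi.zero_apply]
    simp
    tauto
  have h2 := hm.setIntegral_preimage_emb e.measurableEmbedding
    (fun q : (ℝ × ℝ) × (ℝ × ℝ) => wA α.f q.1.1 q.1.2 * wA β.f q.2.1 q.2.2) (I ×ˢ I)
  rw [← hc] at h2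
  simp only [he] at h2
  rw [h2]
  have h3 := setIntegral_prod_mul (μ := (volume : Measure (ℝ × ℝ)))
    (ν := (volume : Measure (ℝ × ℝ))) (fun p : ℝ × ℝ => wA α.f p.1 p.2)
    (fun p : ℝ × ℝ => wA β.f p.1 p.2) I I
  rw [int_w, int_w] at h3
  exact h3

/-! ### The number of a product projector -/

theorem om_map {S T ι n : Type} [CommRing S] [CommRing T] [Fintype n] (φ : S →+* T)
    (D : ι → S → S) (e : Matrix n n S) (E : Matrix n n T) (P : ι → Matrix n n T)
    (he : e.map φ = E) (hP : ∀ j, (e.map (D j)).map φ = P j) (a b c d : ι) :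
    φ (om D e a b c d) = 2 * (((E * (P a * P b - P b * P a)) * (E * (P c * P d - P d * P c))).trace -
      ((E * (P a * P c - P c * P a)) * (E * (P b * P d - P d * P b))).trace +
      ((E * (P a * P d - P d * P a)) * (E * (P b * P c - P c * P b))).trace) := by
  have hF : ∀ j k, (Fc D e j k).map φ = E * (P j * P k - P k * P j) := by
    intro j k
    rw [Fc, Matrix.map_mul, Matrix.map_sub φ (fun x y => map_sub φ x y), Matrix.map_mul,
      Matrix.map_mul, he, hP, hP]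
  have ht : ∀ M N : Matrix n n S, φ (M * N).trace = (M.map φ * N.map φ).trace := by
    intro M N
    rw [← Matrix.map_mul]
    simp only [Matrix.trace, Matrix.diag, map_sum, Matrix.map_apply]
  rw [om, map_mul, map_add, map_sub, ht, ht, ht, hF, hF, hF, hF, hF, hF, map_ofNat]

theorem om_prod (α β : PerMap)
    (h : ∀ i j, SmPer (fun x => pR (α.f (x 0) (x 1)) (β.f (x 2) (x 3)) i j)) (x : Ang) :
    (om pd (mB (fun x => pR (α.f (x 0) (x 1)) (β.f (x 2) (x 3))) h) 0 1 2 3).fn x =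
      ((wA α.f (x 0) (x 1) * wA β.f (x 2) (x 3) : ℝ) : ℂ) := by
  set a := α.f (x 0) (x 1) with ha
  set b := β.f (x 2) (x 3) with hb
  set a0 := deriv (fun t => α.f t (x 1)) (x 0) with ha0
  set a1 := deriv (fun t => α.f (x 0) t) (x 1) with ha1
  set b2 := deriv (fun t => β.f t (x 3)) (x 2) with hb2
  set b3 := deriv (fun t => β.f (x 2) t) (x 3) with hb3
  let C : (Fin 3 → ℝ) → Fin 3 → ℂ := fun u i => (u i : ℂ)
  let P : Fin 4 → Matrix (Fin 4) (Fin 4) ℂ :=
    ![(-1 / 2 : ℂ) • (LL (C a0) * RR (C b)), (-1 / 2 : ℂ) • (LL (C a1) * RR (C b)),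
      (-1 / 2 : ℂ) • (LL (C a) * RR (C b2)), (-1 / 2 : ℂ) • (LL (C a) * RR (C b3))]
  have hcast : ∀ (u v : Fin 3 → ℝ) (i k : Fin 4),
      ((((-1 / 2 : ℝ) • (LL u * RR v)) i k : ℝ) : ℂ) =
        ((-1 / 2 : ℂ) • (LL (C u) * RR (C v))) i k := by
    intro u v i k
    have h1 : (LL u * RR v).map (Complex.ofRealHom : ℝ →+* ℂ) = LL (C u) * RR (C v) := by
      rw [Matrix.map_mul, LL_map, RR_map]
      rfl
    rw [← h1]
    simp only [Matrix.smul_apply, Matrix.map_apply, smul_eq_mul, Complex.ofRealHom_eq_coe]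
    push_cast
    ring
  have s0 : ∀ (t : ℝ) (j k : Fin 4), (x + t • (Pi.single j (1 : ℝ) : Ang)) k =
      if k = j then x k + t else x k := by
    intro t j k
    by_cases hk : k = j
    · subst hk; simp
    · simp [hk]
  have hE : (mB (fun x => pR (α.f (x 0) (x 1)) (β.f (x 2) (x 3))) h).map (evx x) =
      (1 / 2 : ℂ) • (1 - LL (C a) * RR (C b)) := by
    have h1 : (LL a * RR b).map (Complex.ofRealHom : ℝ →+* ℂ) = LL (C a) * RR (C b) := by
      rw [Matrix.map_mul, LL_map, RR_map]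
      rfl
    rw [← h1]
    ext i k
    simp only [Matrix.map_apply, evx_apply, mB_fn, pR, ← ha, ← hb, Matrix.smul_apply,
      Matrix.sub_apply, smul_eq_mul, Complex.ofRealHom_eq_coe]
    push_cast
    congr 2
    by_cases hik : i = k
    · subst hik; simp
    · simp [hik]
  have hP : ∀ j, ((mB (fun x => pR (α.f (x 0) (x 1)) (β.f (x 2) (x 3))) h).map (pd j)).map
      (evx x) = P j := by
    intro j
    ext i k
    rw [Matrix.map_apply, Matrix.map_apply, evx_apply]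
    refine pd_line _ j x _ ?_
    simp only [mB_fn, s0]
    fin_cases j
    · have h1 : HasDerivAt (fun t => α.f (x 0 + t) (x 1)) a0 0 := by
        have := (per1' α (x 0 + 0) (x 1))
        have h2 := HasDerivAt.comp_const_add (x 0) 0 this
        simpa using h2
      have h3 := hasDerivAt_LL _ a0 b 0 h1 i k
      rw [hcast] at h3
      simpa [P] using h3
    · have h1 : HasDerivAt (fun t => α.f (x 0) (x 1 + t)) a1 0 := by
        have := (per2' α (x 0) (x 1 + 0))
        have h2 := HasDerivAt.comp_const_add (x 1) 0 this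
        simpa using h2
      have h3 := hasDerivAt_LL _ a1 b 0 h1 i k
      rw [hcast] at h3
      simpa [P] using h3
    · have h1 : HasDerivAt (fun t => β.f (x 2 + t) (x 3)) b2 0 := by
        have := (per1' β (x 2 + 0) (x 3))
        have h2 := HasDerivAt.comp_const_add (x 2) 0 this
        simpa using h2
      have h3 := hasDerivAt_RR _ b2 a 0 h1 i k
      rw [hcast] at h3
      simpa [P] using h3
    · have h1 : HasDerivAt (fun t => β.f (x 2) (x 3 + t)) b3 0 := by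
        have := (per2' β (x 2) (x 3 + 0))
        have h2 := HasDerivAt.comp_const_add (x 3) 0 this
        simpa using h2
      have h3 := hasDerivAt_RR _ b3 a 0 h1 i k
      rw [hcast] at h3
      simpa [P] using h3
  have hdot : ∀ u v : Fin 3 → ℝ, C u ⬝ᵥ C v = ((u ⬝ᵥ v : ℝ) : ℂ) := by
    intro u v
    simp [C, dotProduct]
  have hcr : ∀ u v : Fin 3 → ℝ, crossProduct (C u) (C v) = C (crossProduct u v) := by
    intro u v
    ext i
    fin_cases i <;> simp [C, crossProduct]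
  have haa : a ⬝ᵥ a = 1 := by
    rw [← α.unit (x 0) (x 1), dotProduct]
    exact Finset.sum_congr rfl fun i _ => (sq _).symm
  have hbb : b ⬝ᵥ b = 1 := by
    rw [← β.unit (x 2) (x 3), dotProduct]
    exact Finset.sum_congr rfl fun i _ => (sq _).symm
  have key := omv_eq (C a) (C a0) (C a1) (C b) (C b2) (C b3)
    (by rw [hdot, haa]; simp)
    (by rw [hdot, orth_of _ a0 (x 0) (per1' α (x 0) (x 1)) fun s => α.unit _ _]; simp)
    (by rw [hdot, orth_of _ a1 (x 1) (per2' α (x 0) (x 1)) fun s => α.unit _ _]; simp)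
    (by rw [hdot, hbb]; simp)
    (by rw [hdot, orth_of _ b2 (x 2) (per1' β (x 2) (x 3)) fun s => β.unit _ _]; simp)
    (by rw [hdot, orth_of _ b3 (x 3) (per2' β (x 2) (x 3)) fun s => β.unit _ _]; simp)
  have h5 := om_map (evx x) pd (mB (fun x => pR (α.f (x 0) (x 1)) (β.f (x 2) (x 3))) h) _ P hE hP
    0 1 2 3
  rw [evx_apply] at h5
  rw [h5]
  rw [hcr, hcr, hdot, hdot] at key
  have e : wA α.f (x 0) (x 1) * wA β.f (x 2) (x 3) =
    (a ⬝ᵥ crossProduct a0 a1) * (b ⬝ᵥ crossProduct b2 b3) := rfl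
  rw [e]
  push_cast
  rw [← key]
  rfl

theorem prod_ok (_ : S_PD) : S_PROD := by
  intro α β h
  have h1 : ∀ x : Ang, (om pd (mB (fun x => pR (α.f (x 0) (x 1)) (β.f (x 2) (x 3))) h) 0 1 2 3).fn
      x = ((wA α.f (x 0) (x 1) * wA β.f (x 2) (x 3) : ℝ) : ℂ) := om_prod α β h
  have h2 : Phi (mB (fun x => pR (α.f (x 0) (x 1)) (β.f (x 2) (x 3))) h) =
      ∫ x in cube, ((wA α.f (x 0) (x 1) * wA β.f (x 2) (x 3) : ℝ) : ℂ) := by
    rw [Phi]
    exact integral_congr_ae (Filter.Eventually.of_forall fun x => h1 x)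
  rw [h2, ← int_cube]
  exact integral_ofReal

end Pool.Agent.Helper65.AC
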